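import Mathlib
import Pool.Prelude.Def_H_3587d628
import Pool.Agent.Lib.MP_1b5cbf_lc.Main

namespace Pool.Agent.Results.MP_1b5cbf_lc.BeyondFreezing

open Pool.Agent.Lib.MP_1b5cbf_lc

theorem result : ∃ P : List (List Bool) → List ℕ, N68a2faeb.IsPolyTime P ∧
    ∃ (C : ℝ) (k₀ : ℕ), ∀ k : ℕ, k₀ ≤ k → ∀ c : ℝ, 0 < c →
      c ≤ k * (Real.log k + 2 * Real.log (Real.log k)
        - C * Real.log (Real.log (Real.log k))) / 2 →
      Filter.Tendsto (fun n : ℕ =>
        (Set.ncard {G : SimpleGraph (Fin n) | G.edgeSet.ncard = ⌊c * n⌋₊ ∧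
          ∃ f : G.Coloring (Fin k),
            P (List.ofFn fun u : Fin n => List.ofFn fun v : Fin n =>
              @decide (G.Adj u v) (Classical.propDecidable _)) =
            List.ofFn fun v : Fin n => (f v).val} : ℝ) /
        (Set.ncard {G : SimpleGraph (Fin n) | G.edgeSet.ncard = ⌊c * n⌋₊} : ℝ))
        Filter.atTop (nhds 1) :=
  ⟨alg, alg_poly, 35, main⟩

end Pool.Agent.Results.MP_1b5cbf_lc.BeyondFreezing
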