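import Mathlib
import Pool.Agent.Lib.MP_1b5cbf_lc.Bar.All
import Pool.Agent.Lib.MP_1b5cbf_lc.Bar.Almost

namespace Pool.Agent.Results.MP_1b5cbf_lc.StableBarrier

open Pool.Agent.Lib.MP_1b5cbf_lc

theorem result : ∃ (C : ℝ) (k₀ : ℕ), ∀ k : ℕ, k₀ ≤ k → ∀ c : ℝ,
    k * (Real.log k + C * Real.log (Real.log k)) / 2 ≤ c → ∀ δ : ℝ, 0 < δ →
    ∃ η : ℝ, 0 < η ∧ ∃ n₀ : ℕ, ∀ n : ℕ, n₀ ≤ n →
    ∀ (m : ℕ) (A : Fin m → SimpleGraph (Fin n) → Fin n → Fin k),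
      ∑ s : Fin m, ∑ᶠ x ∈ {x : SimpleGraph (Fin n) × SimpleGraph (Fin n) |
          x.1.edgeSet.ncard = ⌊c * n⌋₊ ∧ x.2.edgeSet.ncard = ⌊c * n⌋₊ ∧
            (x.1.edgeSet \ x.2.edgeSet).ncard = 1},
          (Set.ncard {v | A s x.1 v ≠ A s x.2 v} : ℝ) ^ 2 ≤
        η * n * (m * Set.ncard {x : SimpleGraph (Fin n) × SimpleGraph (Fin n) |
          x.1.edgeSet.ncard = ⌊c * n⌋₊ ∧ x.2.edgeSet.ncard = ⌊c * n⌋₊ ∧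
            (x.1.edgeSet \ x.2.edgeSet).ncard = 1}) →
      (Set.ncard {y : Fin m × SimpleGraph (Fin n) | y.2.edgeSet.ncard = ⌊c * n⌋₊ ∧
          ∃ j : Fin k, (1 - Real.log (Real.log k) / Real.log k) * n ≤
            k * (Set.ncard {v | A y.1 y.2 v = j ∧ ∀ u, y.2.Adj v u → A y.1 y.2 u ≠ j} : ℝ)} : ℝ) ≤
        δ * (m * Set.ncard {G : SimpleGraph (Fin n) | G.edgeSet.ncard = ⌊c * n⌋₊}) :=
  Bar.Almost.main Bar.all_MainMSt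

end Pool.Agent.Results.MP_1b5cbf_lc.StableBarrier
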